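import Pool.Agent.Q152.CC.Stm

/-!
# Project CC (helper152), job FUL: the sum over a full period is zero
-/

set_option autoImplicit false

namespace Pool.Agent.Q124.CC

open Finset Pool.Agent.Y692.QS Pool.Agent.Q152.CC
open Pool.Agent.Q255.CU (fc)

/-- sums over a complete residue system -/
theorem sum_cast (T : ℕ) [NeZero T] (g : ZMod T → ℂ) :
    ∑ x ∈ range T, g (x : ZMod T) = ∑ u : ZMod T, g u := by
  refine Finset.sum_nbij' (fun x => (x : ZMod T)) (fun u => u.val) ?_ ?_ ?_ ?_ ?_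
  · intro x _
    exact mem_univ _
  · intro u _
    exact mem_range.2 (ZMod.val_lt u)
  · intro x hx
    exact ZMod.val_natCast_of_lt (mem_range.1 hx)
  · intro u _
    exact ZMod.natCast_zmod_val u
  · intro x _
    rfl

/-- sums over a shifted complete residue system -/
theorem sum_shift (T : ℕ) [NeZero T] (a : ℤ) (f : ZMod T → ℂ) :
    ∑ x ∈ range T, f (((a + x : ℤ) : ZMod T)) = ∑ u : ZMod T, f u := by
  rw [← Equiv.sum_comp (Equiv.addLeft (a : ZMod T)) f, ← sum_cast T]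
  refine Finset.sum_congr rfl fun x _ => ?_
  rw [Equiv.coe_addLeft]
  push_cast
  rfl

theorem al_re (s t : ℤ) : (al s t).re = 1 + 3 * s := rfl

theorem al_im (s t : ℤ) : (al s t).im = 3 * t := rfl

theorem al_three (s t : ℤ) : (3 : Ei) ∣ al s t - 1 := by
  have h : (((3 : ℤ) : Ei)) ∣ al s t - 1 := by
    rw [int_dvd, QuadraticAlgebra.re_sub, QuadraticAlgebra.im_sub, al_re, al_im]
    refine ⟨⟨s, ?_⟩, ⟨t, ?_⟩⟩
    · show 1 + 3 * s - 1 = 3 * s
      ring
    · show 3 * t - 0 = 3 * t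
      ring
  exact_mod_cast h

theorem al_per (n : ℕ) (s t s' t' : ℤ) (h1 : (3 * n : ℤ) ∣ s - s') (h2 : (3 * n : ℤ) ∣ t - t') :
    ((9 * (n : ℤ) : ℤ) : Ei) ∣ al s t - al s' t' := by
  rw [int_dvd, QuadraticAlgebra.re_sub, QuadraticAlgebra.im_sub, al_re, al_im, al_re, al_im]
  obtain ⟨k, hk⟩ := h1
  obtain ⟨l, hl⟩ := h2
  exact ⟨⟨k, by linear_combination 3 * hk⟩, ⟨l, by linear_combination 3 * hl⟩⟩

theorem al_mul (β : Ei) (p r s t : ℤ) (hp : β.re = 1 + 3 * p) (hr : β.im = 3 * r) :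
    al s t * β = al (β.re * s - β.im * t + p) (β.re * t + β.im * s - β.im * t + r) := by
  ext
  · rw [mul_re, al_re, al_im, al_re]
    linear_combination hp
  · rw [mul_im, al_re, al_im, al_im]
    linear_combination hr

theorem nr_unit (β : Ei) (p r : ℤ) (hp : β.re = 1 + 3 * p) (hr : β.im = 3 * r) :
    IsCoprime (3 : ℤ) (nr β) := by
  refine ⟨-(2 * p + 3 * p ^ 2 - r - 3 * p * r + 3 * r ^ 2), 1, ?_⟩
  rw [nr, hp, hr]
  ring

theorem ful (bet : S_BET) (per : S_PER) (xmu : S_XMU) : S_FUL := by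
  intro A B hA hB hne a b
  obtain ⟨β, hβ3, hβc, hβ⟩ := bet A B hA hB hne
  obtain ⟨p, r, hp, hr⟩ := prim_form hβ3
  have hTpos : 0 < 3 * A * B := by positivity
  generalize hT : 3 * A * B = T at hTpos ⊢
  have : NeZero T := ⟨hTpos.ne'⟩
  have hTz : (T : ℤ) = 3 * A * B := by rw [← hT]; push_cast; rfl
  have hβc' : IsCoprime (nr β) ((A : ℤ) * B) := by
    have := hβc
    push_cast at this
    exact this
  -- the summand
  obtain ⟨G, hG⟩ : ∃ G : Ei → ℂ, G = fun α => xi α A * star (xi α B) := ⟨_, rfl⟩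
  have hper : ∀ s t s' t' : ℤ, (T : ℤ) ∣ s - s' → (T : ℤ) ∣ t - t' → G (al s t) = G (al s' t') := by
    intro s t s' t' h1 h2
    rw [hTz] at h1 h2
    have hA1 : (3 * A : ℤ) ∣ 3 * A * B := ⟨B, rfl⟩
    have hB1 : (3 * B : ℤ) ∣ 3 * A * B := ⟨A, by ring⟩
    rw [hG]
    show xi (al s t) A * star (xi (al s t) B) = xi (al s' t') A * star (xi (al s' t') B)
    rw [per A _ _ hA (al_three s t) (al_three s' t')
        (al_per A s t s' t' (hA1.trans h1) (hA1.trans h2)),
      per B _ _ hB (al_three s t) (al_three s' t')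
        (al_per B s t s' t' (hB1.trans h1) (hB1.trans h2))]
  have hmul : ∀ s t : ℤ, G (al s t * β) = G (al s t) * G β := by
    intro s t
    rw [hG]
    show xi (al s t * β) A * star (xi (al s t * β) B) =
      xi (al s t) A * star (xi (al s t) B) * (xi β A * star (xi β B))
    rw [xmu.2.1 _ _ A hA (al_three s t) hβ3, xmu.2.1 _ _ B hB (al_three s t) hβ3, star_mul']
    ring
  have hGβ : G β ≠ 1 := by
    rw [hG]
    show xi β A * star (xi β B) ≠ 1
    rw [xi, xi, if_pos (IsCoprime.of_mul_right_left hβc'), if_pos (IsCoprime.of_mul_right_right hβc')]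
    have e : star (toC (kn B β)) = toC (star (kn B β)) := (toC_star _).symm
    rw [e, ← map_mul]
    intro h
    exact hβ (toC_inj (h.trans (map_one toC).symm))
  obtain ⟨F, hF0⟩ : ∃ F : ZMod T → ZMod T → ℂ, F = fun u v => G (al (u.val : ℤ) (v.val : ℤ)) :=
    ⟨_, rfl⟩
  have hdiv : ∀ s : ℤ, (T : ℤ) ∣ s - ((s : ZMod T).val : ℤ) := by
    intro s
    rw [← ZMod.intCast_zmod_eq_zero_iff_dvd]
    push_cast
    rw [ZMod.natCast_zmod_val, sub_self]
  have hF : ∀ s t : ℤ, G (al s t) = F (s : ZMod T) (t : ZMod T) := by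
    intro s t
    rw [hF0]
    exact hper _ _ _ _ (hdiv s) (hdiv t)
  have hsum : ∑ x ∈ range T, ∑ y ∈ range T,
      xi (al (a + x) (b + y)) A * star (xi (al (a + x) (b + y)) B) =
      ∑ q : ZMod T × ZMod T, F q.1 q.2 := by
    rw [Fintype.sum_prod_type, ← sum_shift T a (fun u => ∑ v : ZMod T, F u v)]
    refine Finset.sum_congr rfl fun x _ => ?_
    rw [← sum_shift T b (fun v => F (((a + x : ℤ)) : ZMod T) v)]
    refine Finset.sum_congr rfl fun y _ => ?_
    have := hF (a + x) (b + y)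
    rw [← this, hG]
  rw [hsum]
  -- the affine map
  have hN : IsUnit ((β.re : ZMod T) ^ 2 - (β.re : ZMod T) * (β.im : ZMod T) +
      (β.im : ZMod T) ^ 2) := by
    have h1 : IsCoprime (T : ℤ) (nr β) := by
      rw [hTz, mul_assoc]
      exact IsCoprime.mul_left (nr_unit β p r hp hr) hβc'.symm
    have h2 := (ZMod.coe_int_isUnit_iff_isCoprime (nr β) T).2 h1
    have h3 : ((nr β : ℤ) : ZMod T) = (β.re : ZMod T) ^ 2 - (β.re : ZMod T) * (β.im : ZMod T) +
        (β.im : ZMod T) ^ 2 := by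
      rw [nr]
      push_cast
      ring
    rwa [h3] at h2
  obtain ⟨φ, hφ⟩ : ∃ φ : ZMod T × ZMod T → ZMod T × ZMod T, φ = fun q =>
      ((β.re : ZMod T) * q.1 - (β.im : ZMod T) * q.2 + (p : ZMod T),
        (β.re : ZMod T) * q.2 + (β.im : ZMod T) * q.1 - (β.im : ZMod T) * q.2 + (r : ZMod T)) :=
    ⟨_, rfl⟩
  have hinj : Function.Injective φ := by
    rintro ⟨u, v⟩ ⟨u', v'⟩ h
    rw [hφ] at h
    have h1 := congrArg Prod.fst h
    have h2 := congrArg Prod.snd h
    dsimp only at h1 h2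
    have e1 : u - u' = 0 := by
      apply hN.mul_left_cancel
      linear_combination ((β.re : ZMod T) - (β.im : ZMod T)) * h1 + (β.im : ZMod T) * h2
    have e2 : v - v' = 0 := by
      apply hN.mul_left_cancel
      linear_combination (-(β.im : ZMod T)) * h1 + (β.re : ZMod T) * h2
    rw [sub_eq_zero.1 e1, sub_eq_zero.1 e2]
  have hbij : Function.Bijective φ := Finite.injective_iff_bijective.1 hinj
  have hFφ : ∀ q : ZMod T × ZMod T, F (φ q).1 (φ q).2 = F q.1 q.2 * G β := by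
    rintro ⟨u, v⟩
    have hu : (((u.val : ℤ)) : ZMod T) = u := by
      push_cast
      exact ZMod.natCast_zmod_val u
    have hv : (((v.val : ℤ)) : ZMod T) = v := by
      push_cast
      exact ZMod.natCast_zmod_val v
    have h1 : F u v = G (al (u.val : ℤ) (v.val : ℤ)) := by rw [hF0]
    dsimp only
    rw [h1, ← hmul, al_mul β p r _ _ hp hr, hF, hφ]
    dsimp only
    congr 1
    · rw [Int.cast_add, Int.cast_sub, Int.cast_mul, Int.cast_mul, hu, hv]
    · rw [Int.cast_add, Int.cast_sub, Int.cast_add, Int.cast_mul, Int.cast_mul, Int.cast_mul, hu, hv]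
  have h1 : ∑ q : ZMod T × ZMod T, F (φ q).1 (φ q).2 = ∑ q : ZMod T × ZMod T, F q.1 q.2 :=
    hbij.sum_comp (fun q : ZMod T × ZMod T => F q.1 q.2)
  have h2 : ∑ q : ZMod T × ZMod T, F (φ q).1 (φ q).2 =
      (∑ q : ZMod T × ZMod T, F q.1 q.2) * G β := by
    rw [Finset.sum_mul]
    exact Finset.sum_congr rfl fun q _ => hFφ q
  have h3 : (∑ q : ZMod T × ZMod T, F q.1 q.2) * (G β - 1) = 0 := by
    rw [mul_sub, mul_one, ← h2, h1, sub_self]
  rcases mul_eq_zero.1 h3 with h | h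
  · exact h
  · exact absurd (sub_eq_zero.1 h) hGβ

end Pool.Agent.Q124.CC
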